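import Pool.Agent.Helper40.Ct.Goals

/-! Cyclic symmetry. -/

set_option autoImplicit false

open Finset

namespace Pool.Agent.Helper77.Ct

open Pool.Agent.Helper40.Ct

theorem Pf_congr {α β : Type} : ∀ (E : List β) (g g' : List (α × β) → ℤ) (X : List α),
    (∀ l : List (α × β), (∀ q ∈ l, q.1 ∈ X ∧ q.2 ∈ E) → g l = g' l) → Pf E g X = Pf E g' X
  | [], _, _, _, _ => by simp only [Pf]
  | [e], g, g', [], _ => by simp only [Pf]
  | [e], g, g', x :: xs, h => by
      simp only [Pf]
      apply h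
      intro q hq
      obtain ⟨y, hy, rfl⟩ := List.mem_map.1 hq
      exact ⟨hy, by simp⟩
  | e :: e' :: es, g, g', X, h => by
      simp only [Pf]
      refine Finset.sum_congr rfl fun i hi => ?_
      congr 1
      apply Pf_congr (e' :: es)
      intro l hl
      apply h
      intro q hq
      rw [List.mem_append] at hq
      rcases hq with hq | hq
      · obtain ⟨y, hy, rfl⟩ := List.mem_map.1 hq
        exact ⟨List.mem_of_mem_take hy, by simp⟩
      · obtain ⟨h1, h2⟩ := hl q hq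
        exact ⟨List.mem_of_mem_drop h1, List.mem_cons_of_mem _ h2⟩

theorem Pf_smul {α β : Type} (s : ℤ) : ∀ (E : List β) (g : List (α × β) → ℤ) (X : List α),
    Pf E (fun l => s * g l) X = s * Pf E g X
  | [], _, _ => by simp only [Pf, mul_zero]
  | [e], g, [] => by simp only [Pf, mul_zero]
  | [e], g, x :: xs => by simp only [Pf]
  | e :: e' :: es, g, X => by
      simp only [Pf, Finset.mul_sum]
      refine Finset.sum_congr rfl fun i hi => ?_
      rw [Pf_smul s (e' :: es) (fun l => g ((X.take (i + 1)).map (fun y => (y, e)) ++ l))]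
      ring

theorem dg_perm {N : ℕ} (b : Fin N → ℝ) (τ : Equiv.Perm (Fin N)) (hb : b ∘ τ = b)
    (w : Fin N → (Fin N → ℝ)) :
    dg b (fun s => w s ∘ τ) = ((Equiv.Perm.sign τ : ℤˣ) : ℤ) * dg b w := by
  have h1 : (∃ c : Fin N → ℝ, (∀ s, 0 ≤ c s) ∧ ∑ s, c s • (w s ∘ τ) = b) ↔
      ∃ c : Fin N → ℝ, (∀ s, 0 ≤ c s) ∧ ∑ s, c s • w s = b := by
    refine exists_congr fun c => and_congr_right fun _ => ?_
    have h2 : ∑ s, c s • (w s ∘ τ) = (∑ s, c s • w s) ∘ τ := by
      funext t
      simp only [Finset.sum_apply, Pi.smul_apply, Function.comp_apply]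
    rw [h2]
    constructor
    · intro h
      funext t
      have h3 := congrFun h (τ.symm t)
      have h4 := congrFun hb (τ.symm t)
      simp only [Function.comp_apply, Equiv.apply_symm_apply] at h3 h4
      rw [h3, h4]
    · intro h
      rw [h, hb]
  have h2 : (Matrix.of fun s => w s ∘ τ) = (Matrix.of w).submatrix id τ := by
    ext s t
    rfl
  unfold dg
  by_cases h : ∃ c : Fin N → ℝ, (∀ s, 0 ≤ c s) ∧ ∑ s, c s • w s = b
  · rw [if_pos (h1.2 h), if_pos h, h2, Matrix.det_permute']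
    rcases Int.units_eq_one_or (Equiv.Perm.sign τ) with h3 | h3
    · rw [h3]; simp
    · rw [h3]; simp [Left.sign_neg]
  · rw [if_neg (fun h' => h (h1.1 h')), if_neg h, mul_zero]

theorem dgL_perm {N : ℕ} (b : Fin N → ℝ) (τ : Equiv.Perm (Fin N)) (hb : b ∘ τ = b)
    (l : List (Fin N → ℝ)) :
    dgL b (l.map fun v => v ∘ τ) = ((Equiv.Perm.sign τ : ℤˣ) : ℤ) * dgL b l := by
  unfold dgL
  by_cases h : l.length = N
  · rw [dif_pos (by rw [List.length_map]; exact h), dif_pos h, ← dg_perm b τ hb]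
    congr 1
    funext s
    simp
  · rw [dif_neg (by rw [List.length_map]; exact h), dif_neg h, mul_zero]

variable {d r : ℕ}

/-- Left multiplication of a facet by a permutation. -/
def act (c : Equiv.Perm (Fin (r + 1))) (π : Fac d r) : Fac d r := fun i => c * π i

theorem sg_act (c : Equiv.Perm (Fin (r + 1))) (π : Fac d r) :
    sg (act c π) = ((Equiv.Perm.sign c : ℤˣ) : ℤ) ^ (d + 1) * sg π := by
  unfold sg act
  simp only [map_mul, Units.val_mul, Finset.prod_mul_distrib, Finset.prod_const,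
    Finset.card_univ, Fintype.card_fin]

/-- The permutation of the coordinates. -/
def coo (d : ℕ) {r : ℕ} (c : Equiv.Perm (Fin (r + 1))) : Equiv.Perm (Fin ((d + 1) * (r + 1))) :=
  finProdFinEquiv.permCongr (Equiv.prodCongrRight fun _ : Fin (d + 1) => c⁻¹)

theorem coo_apply (c : Equiv.Perm (Fin (r + 1))) (s : Fin ((d + 1) * (r + 1))) :
    finProdFinEquiv.symm (coo d c s) =
      ((finProdFinEquiv.symm s).1, c⁻¹ (finProdFinEquiv.symm s).2) := by
  unfold coo
  rw [Equiv.permCongr_apply, Equiv.symm_apply_apply]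
  rfl

theorem coo_sign (c : Equiv.Perm (Fin (r + 1))) :
    ((Equiv.Perm.sign (coo d c) : ℤˣ) : ℤ) = ((Equiv.Perm.sign c : ℤˣ) : ℤ) ^ (d + 1) := by
  unfold coo
  rw [Equiv.Perm.sign_permCongr, Equiv.Perm.sign_prodCongrRight]
  simp

theorem bvec_coo (c : Equiv.Perm (Fin (r + 1))) : bvec d r ∘ coo d c = bvec d r := by
  funext s
  simp only [Function.comp_apply, bvec, coo_apply]

theorem enc_act (c : Equiv.Perm (Fin (r + 1))) (π : Fac d r) (w : Fin d → ℝ) (e : El d r)
    (he : e ≠ none) : enc (act c π) w e = enc π w e ∘ coo d c := by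
  obtain ⟨⟨i, a⟩, rfl⟩ := Option.ne_none_iff_exists'.1 he
  funext s
  simp only [Function.comp_apply, enc, coo_apply, part, act, Equiv.Perm.mul_apply]
  have : ((finProdFinEquiv.symm s).2 = c (π i a.succ)) ↔
      (c⁻¹ (finProdFinEquiv.symm s).2 = π i a.succ) := by
    rw [Equiv.Perm.inv_eq_iff_eq]
  by_cases h : (finProdFinEquiv.symm s).2 = c (π i a.succ)
  · rw [if_pos h, if_pos (this.1 h)]
  · rw [if_neg h, if_neg (fun h' => h (this.2 h'))]

theorem fpi_act {α : Type} (u : α → El d r → (Fin d → ℝ)) (c : Equiv.Perm (Fin (r + 1)))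
    (π : Fac d r) (l : List (α × El d r)) (hl : ∀ q ∈ l, q.2 ≠ none) :
    fpi u (act c π) l = ((Equiv.Perm.sign c : ℤˣ) : ℤ) ^ (d + 1) * fpi u π l := by
  unfold fpi
  rw [← coo_sign, ← dgL_perm _ _ (bvec_coo c), List.map_map]
  congr 1
  refine List.map_congr_left fun q hq => ?_
  exact enc_act c π _ _ (hl q hq)

theorem inv {α : Type} (u : α → El d r → (Fin d → ℝ)) (X : List α) (E : List (El d r))
    (hE : none ∉ E) (c : Equiv.Perm (Fin (r + 1))) (π : Fac d r) :
    sg (act c π) * Pf E (fpi u (act c π)) X = sg π * Pf E (fpi u π) X := by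
  have h1 : Pf E (fpi u (act c π)) X =
      ((Equiv.Perm.sign c : ℤˣ) : ℤ) ^ (d + 1) * Pf E (fpi u π) X := by
    rw [← Pf_smul]
    refine Pf_congr E _ _ X fun l hl => ?_
    exact fpi_act u c π l fun q hq h => hE (h ▸ (hl q hq).2)
  rw [h1, sg_act]
  have h2 : ((Equiv.Perm.sign c : ℤˣ) : ℤ) ^ (d + 1) * ((Equiv.Perm.sign c : ℤˣ) : ℤ) ^ (d + 1) =
      1 := by
    rw [← mul_pow]
    rcases Int.units_eq_one_or (Equiv.Perm.sign c) with h3 | h3 <;> simp [h3]
  calc _ = (((Equiv.Perm.sign c : ℤˣ) : ℤ) ^ (d + 1) * ((Equiv.Perm.sign c : ℤˣ) : ℤ) ^ (d + 1)) *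
        (sg π * Pf E (fpi u π) X) := by ring
    _ = _ := by rw [h2, one_mul]

theorem cyc : CYC := by
  intro d r α u X E hE
  set F : Fac d r → ℤ := fun π => sg π * Pf E (fpi u π) X with hF
  have h1 : ∑ π : Fac d r, F π = ∑ j : Fin (r + 1), ∑ π ∈ univ.filter (fun π : Fac d r =>
      π 0 0 = j), F π := by
    rw [Finset.sum_fiberwise]
  have h2 : ∀ j : Fin (r + 1), ∑ π ∈ univ.filter (fun π : Fac d r => π 0 0 = j), F π =
      ∑ π ∈ univ.filter (fun π : Fac d r => π 0 0 = 0), F π := by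
    intro j
    refine Finset.sum_bij' (fun π _ => act (Equiv.swap 0 j) π)
      (fun π _ => act (Equiv.swap 0 j) π) ?_ ?_ ?_ ?_ ?_
    · intro π hπ
      rw [Finset.mem_filter] at hπ ⊢
      refine ⟨Finset.mem_univ _, ?_⟩
      simp only [act, Equiv.Perm.mul_apply, hπ.2, Equiv.swap_apply_right]
    · intro π hπ
      rw [Finset.mem_filter] at hπ ⊢
      refine ⟨Finset.mem_univ _, ?_⟩
      simp only [act, Equiv.Perm.mul_apply, hπ.2, Equiv.swap_apply_left]
    · intro π _
      funext i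
      simp only [act, ← mul_assoc, Equiv.swap_mul_self, one_mul]
    · intro π _
      funext i
      simp only [act, ← mul_assoc, Equiv.swap_mul_self, one_mul]
    · intro π _
      exact (inv u X E hE _ π).symm
  show ((r + 1 : ℕ) : ℤ) ∣ ∑ π : Fac d r, F π
  rw [h1, Finset.sum_congr rfl fun j _ => h2 j, Finset.sum_const, Finset.card_univ,
    Fintype.card_fin, nsmul_eq_mul]
  exact Dvd.intro _ rfl

end Pool.Agent.Helper77.Ct
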